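import Mathlib

set_option autoImplicit false

open Set Filter Topology

namespace Pool.Agent.Results.MP_c42e77_an.ContinuumLevel

/-- The subsum `f(ε) = ∑ ε_n x_n`. -/
noncomputable def subsum (x : ℕ → ℝ) (ε : ℕ → Bool) : ℝ := ∑' n, if ε n = true then x n else 0

/-- The cardinality function `F_x(t) = card f⁻¹(t)`. -/
noncomputable def cardFun (x : ℕ → ℝ) (t : ℝ) : Cardinal := Cardinal.mk {ε : ℕ → Bool // subsum x ε = t}

/-- The level set `L_κ(x) = {t : F_x(t) = κ}`. -/
def levelSet (x : ℕ → ℝ) (κ : Cardinal) : Set ℝ := {t | cardFun x t = κ}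

section Fusion

/-- one half of a set of 0-1 sequences, cut at a coordinate where two of its points differ -/
theorem split (K : Set (ℕ → Bool)) (hK : IsClopen K) (hne : K.Nonempty) :
    ∃ sp : Bool → Set (ℕ → Bool), (∀ b, IsClopen (sp b)) ∧ (∀ b, (sp b).Nonempty) ∧
      (∀ b, sp b ⊆ K) ∧ Disjoint (sp true) (sp false) := by
  obtain ⟨a, ha⟩ := hne
  have hnh : K ∈ 𝓝 a := hK.2.mem_nhds ha
  rw [nhds_pi, Filter.mem_pi] at hnh
  obtain ⟨I, hI, t, ht, hsub⟩ := hnh
  obtain ⟨n, hn⟩ := hI.exists_notMem
  let a' : ℕ → Bool := Function.update a n (! a n)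
  have ha' : a' ∈ K := by
    apply hsub
    intro i hi
    have : i ≠ n := fun h => hn (h ▸ hi)
    simp only [a', Function.update_of_ne this]
    exact mem_of_mem_nhds (ht i)
  have hclop : ∀ b, IsClopen ({γ : ℕ → Bool | γ n = b}) := fun b =>
    (isClopen_discrete {b}).preimage (continuous_apply n)
  refine ⟨fun b => K ∩ {γ | γ n = b}, fun b => hK.inter (hclop b), ?_, fun b => inter_subset_left, ?_⟩
  · intro b
    by_cases hb : a n = b
    · exact ⟨a, ha, hb⟩
    · refine ⟨a', ha', ?_⟩
      simp only [a', mem_ofPred_eq, Function.update_self]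
      cases h : a n <;> cases b <;> simp_all
  · rw [Set.disjoint_left]
    rintro γ ⟨-, h1⟩ ⟨-, h2⟩
    simp only [mem_ofPred_eq] at h1 h2
    rw [h1] at h2
    exact Bool.noConfusion h2

/-- Given countably many continuous 0-1 valued functions on the space of 0-1 sequences, there are
infinitely many of them which are all constant on a common set containing an injective image of
the space of 0-1 sequences. -/
theorem fusion (g : ℕ → (ℕ → Bool) → Bool) (hg : ∀ m, Continuous (g m)) :
    ∃ (v : ℕ → Bool) (M : Set ℕ), M.Infinite ∧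
      ∃ h : (ℕ → Bool) → (ℕ → Bool), Function.Injective h ∧ ∀ m ∈ M, ∀ β, g m (h β) = v m := by
  classical
  -- a family of nonempty clopen sets indexed by lists
  let Good : (List Bool → Set (ℕ → Bool)) → Prop := fun φ => ∀ l, IsClopen (φ l) ∧ (φ l).Nonempty
  by_cases hA : ∀ (k : ℕ) (φ : List Bool → Set (ℕ → Bool)), Good φ → ∀ N : ℕ, ∃ m, N ≤ m ∧
      ∃ v : Bool, ∀ l, l.length = k → ∃ α ∈ φ l, g m α = v
  · -- the fusion
    -- step
    have hstep : ∀ (k : ℕ) (φ : List Bool → Set (ℕ → Bool)) (N : ℕ), Good φ →
        ∃ (m : ℕ) (v : Bool) (ψ : List Bool → Set (ℕ → Bool)), N ≤ m ∧ Good ψ ∧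
          (∀ l, l.length = k → ∀ b, ψ (b :: l) ⊆ φ l ∧ ∀ α ∈ ψ (b :: l), g m α = v) ∧
          (∀ l, l.length = k → Disjoint (ψ (true :: l)) (ψ (false :: l))) := by
      intro k φ N hφ
      obtain ⟨m, hm, v, hv⟩ := hA k φ hφ N
      have hex : ∀ l : List Bool, ∃ sp : Bool → Set (ℕ → Bool), (∀ b, IsClopen (sp b)) ∧
          (∀ b, (sp b).Nonempty) ∧ (l.length = k → ∀ b, sp b ⊆ φ l ∧ ∀ α ∈ sp b, g m α = v) ∧
          Disjoint (sp true) (sp false) := by
        intro l
        by_cases hl : l.length = k
        · have hcl : IsClopen (φ l ∩ {α | g m α = v}) :=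
            (hφ l).1.inter ((isClopen_discrete {v}).preimage (hg m))
          have hne : (φ l ∩ {α | g m α = v}).Nonempty := by
            obtain ⟨α, h1, h2⟩ := hv l hl
            exact ⟨α, h1, h2⟩
          obtain ⟨sp, h1, h2, h3, h4⟩ := split _ hcl hne
          exact ⟨sp, h1, h2, fun _ b => ⟨fun α hα => (h3 b hα).1, fun α hα => (h3 b hα).2⟩, h4⟩
        · obtain ⟨sp, h1, h2, h3, h4⟩ := split univ isClopen_univ univ_nonempty
          exact ⟨sp, h1, h2, fun h => absurd h hl, h4⟩
      choose sp h1 h2 h3 h4 using hex
      refine ⟨m, v, fun l => match l with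
        | [] => univ
        | b :: l => sp l b, hm, ?_, ?_, ?_⟩
      · intro l
        cases l with
        | nil => exact ⟨isClopen_univ, univ_nonempty⟩
        | cons b l => exact ⟨h1 l b, h2 l b⟩
      · intro l hl b
        exact h3 l hl b
      · intro l hl
        exact h4 l
    choose! mm vv ψψ hN hG hS hD using hstep
    -- the recursion: pair (bound, family)
    let seq : ℕ → ℕ × (List Bool → Set (ℕ → Bool)) := fun k => Nat.rec (0, fun _ => univ)
      (fun k p => (mm k p.2 p.1 + 1, ψψ k p.2 p.1)) k
    have hgood : ∀ k, Good (seq k).2 := by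
      intro k
      induction k with
      | zero => exact fun l => ⟨isClopen_univ, univ_nonempty⟩
      | succ k ih => exact hG k (seq k).2 (seq k).1 ih
    let m : ℕ → ℕ := fun k => mm k (seq k).2 (seq k).1
    let v' : ℕ → Bool := fun k => vv k (seq k).2 (seq k).1
    have hseq1 : ∀ k, (seq (k + 1)).1 = m k + 1 := fun k => rfl
    have hmono : StrictMono m := by
      apply strictMono_nat_of_lt_succ
      intro k
      have h1 : (seq (k + 1)).1 ≤ m (k + 1) := hN (k + 1) (seq (k + 1)).2 (seq (k + 1)).1 (hgood (k + 1))
      rw [hseq1] at h1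
      exact h1
    -- the list of the first k bits, newest first
    let pre : (ℕ → Bool) → ℕ → List Bool := fun β k => Nat.rec [] (fun k l => β k :: l) k
    have hlen : ∀ β k, (pre β k).length = k := by
      intro β k
      induction k with
      | zero => rfl
      | succ k ih =>
        change (β k :: pre β k).length = k + 1
        rw [List.length_cons, ih]
    let O : (ℕ → Bool) → ℕ → Set (ℕ → Bool) := fun β k => (seq k).2 (pre β k)
    have hOsub : ∀ β k, O β (k + 1) ⊆ O β k := fun β k =>
      (hS k (seq k).2 (seq k).1 (hgood k) (pre β k) (hlen β k) (β k)).1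
    have hOval : ∀ β k, ∀ α ∈ O β (k + 1), g (m k) α = v' k := fun β k =>
      (hS k (seq k).2 (seq k).1 (hgood k) (pre β k) (hlen β k) (β k)).2
    have hne : ∀ β, (⋂ k, O β k).Nonempty := fun β =>
      IsCompact.nonempty_iInter_of_sequence_nonempty_isCompact_isClosed (O β) (hOsub β)
        (fun k => (hgood k (pre β k)).2) (hgood 0 (pre β 0)).1.1.isCompact
        (fun k => (hgood k (pre β k)).1.1)
    choose h hh using hne
    have hh' : ∀ β k, h β ∈ O β k := fun β k => mem_iInter.1 (hh β) k
    let v : ℕ → Bool := fun n => if hn : ∃ k, m k = n then v' hn.choose else false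
    have hv : ∀ k, v (m k) = v' k := by
      intro k
      have hex : ∃ j, m j = m k := ⟨k, rfl⟩
      have h1 : hex.choose = k := hmono.injective hex.choose_spec
      simp only [v, dif_pos hex, h1]
    refine ⟨v, range m, infinite_range_of_injective hmono.injective, h, ?_, ?_⟩
    · intro β β' hββ'
      by_contra hne
      have hex : ∃ k, β k ≠ β' k := by
        by_contra hcon
        push Not at hcon
        exact hne (funext hcon)
      have hmin : ∀ j, j < Nat.find hex → ¬ (β j ≠ β' j) := fun j hj => Nat.find_min hex hj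
      have hspec := Nat.find_spec hex
      set k := Nat.find hex with hk
      have hpre : ∀ j ≤ k, pre β j = pre β' j := by
        intro j hj
        induction j with
        | zero => rfl
        | succ j ih =>
          change β j :: pre β j = β' j :: pre β' j
          rw [ih (by omega)]
          have := hmin j (by omega)
          push Not at this
          rw [this]
      have h1 : h β ∈ (seq (k + 1)).2 (β k :: pre β k) := hh' β (k + 1)
      have h2 : h β ∈ (seq (k + 1)).2 (β' k :: pre β k) := by
        have : h β' ∈ (seq (k + 1)).2 (β' k :: pre β' k) := hh' β' (k + 1)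
        rw [← hββ', ← hpre k le_rfl] at this
        exact this
      have hdis : Disjoint ((seq (k + 1)).2 (true :: pre β k)) ((seq (k + 1)).2 (false :: pre β k)) :=
        hD k (seq k).2 (seq k).1 (hgood k) (pre β k) (hlen β k)
      rw [Set.disjoint_left] at hdis
      cases hb : β k <;> cases hb' : β' k
      · exact hspec (hb.trans hb'.symm)
      · rw [hb] at h1; rw [hb'] at h2; exact hdis h2 h1
      · rw [hb] at h1; rw [hb'] at h2; exact hdis h1 h2
      · exact hspec (hb.trans hb'.symm)
    · rintro _ ⟨k, rfl⟩ β
      rw [hv]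
      exact hOval β k (h β) (hh' β (k + 1))
  · -- some finite stage is blocked: then one of its sets works
    push Not at hA
    obtain ⟨k, φ, hφ, N, hN⟩ := hA
    have h1 : ∀ m : ℕ, ∃ l : {l : List Bool // l.length = k}, ∀ α ∈ φ l.1, g (m + N) α = true := by
      intro m
      obtain ⟨l, hl, hl2⟩ := hN (m + N) (Nat.le_add_left _ _) false
      exact ⟨⟨l, hl⟩, fun α hα => by have := hl2 α hα; cases h : g (m + N) α <;> simp_all⟩
    choose L hL using h1
    have : Finite {l : List Bool // l.length = k} := (List.finite_length_eq Bool k).to_subtype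
    obtain ⟨l, hl⟩ := Finite.exists_infinite_fiber L
    have hinf : (L ⁻¹' {l}).Infinite := infinite_coe_iff.1 hl
    -- an injection of the 0-1 sequences into the nonempty open set φ l
    obtain ⟨a, ha⟩ := (hφ l.1).2
    have hnh : φ l.1 ∈ 𝓝 a := (hφ l.1).1.2.mem_nhds ha
    rw [nhds_pi, Filter.mem_pi] at hnh
    obtain ⟨I, hI, t, ht, hsub⟩ := hnh
    obtain ⟨B, hB⟩ := hI.bddAbove
    refine ⟨fun _ => true, (fun n => n + N) '' (L ⁻¹' {l}), hinf.image
      (fun a _ b _ hab => by simpa using hab), fun β n => if n ≤ B then a n else β (n - (B + 1)), ?_, ?_⟩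
    · intro β β' h
      funext n
      have h1 := congrFun h (n + (B + 1))
      have h2 : ¬ (n + (B + 1) ≤ B) := by omega
      simpa [h2] using h1
    · rintro _ ⟨n, hn, rfl⟩ β
      have hn' : L n = l := hn
      have := hL n
      rw [hn'] at this
      apply this
      apply hsub
      intro i hi
      have : i ≤ B := hB hi
      simp only [this, if_true]
      exact mem_of_mem_nhds (ht i)

end Fusion

section Fast

/-- a sequence dropping by a factor 3 at each step has injective subsums -/
theorem fast_inj (s : ℕ → ℝ) (hs0 : ∀ j, s j ≠ 0) (hs : ∀ j, |s (j + 1)| ≤ |s j| / 3)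
    (c : ℕ → ℝ) (hc : ∀ j, c j = -1 ∨ c j = 0 ∨ c j = 1) (h0 : ∑' j, c j * s j = 0) :
    ∀ j, c j = 0 := by
  have habs : ∀ j i, |s (i + (j + 1))| ≤ |s j| / 3 * (1 / 3) ^ i := by
    intro j i
    induction i with
    | zero => simpa using hs j
    | succ i ih =>
      have h1 := hs (i + (j + 1))
      rw [show i + 1 + (j + 1) = i + (j + 1) + 1 by ring, pow_succ]
      linarith
  have hc1 : ∀ j, |c j| ≤ 1 := by
    intro j
    rcases hc j with h | h | h <;> simp [h]
  have hsum : Summable (fun j => c j * s j) := by
    rw [← summable_nat_add_iff 1]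
    refine Summable.of_norm_bounded (g := fun i => |s 0| / 3 * (1 / 3) ^ i)
      ((summable_geometric_of_lt_one (by norm_num) (by norm_num)).mul_left _) fun i => ?_
    rw [Real.norm_eq_abs, abs_mul]
    have := habs 0 i
    have h1 := hc1 (i + 1)
    simp only [zero_add] at this
    calc |c (i + 1)| * |s (i + 1)| ≤ 1 * |s (i + 1)| :=
          mul_le_mul_of_nonneg_right h1 (abs_nonneg _)
      _ = |s (i + 1)| := one_mul _
      _ ≤ _ := this
  intro n
  induction n using Nat.strong_induction_on with
  | _ n ih =>
    by_contra hn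
    have h1 := hsum.sum_add_tsum_nat_add (n + 1)
    rw [h0, Finset.sum_range_succ, Finset.sum_eq_zero, zero_add] at h1
    swap
    · intro k hk
      rw [ih k (Finset.mem_range.1 hk), zero_mul]
    have h2 : ‖∑' i, c (i + (n + 1)) * s (i + (n + 1))‖ ≤ |s n| / 3 * (1 - 1 / 3)⁻¹ := by
      refine tsum_of_norm_bounded (g := fun i => |s n| / 3 * (1 / 3) ^ i)
        ((hasSum_geometric_of_lt_one (by norm_num) (by norm_num)).mul_left _) fun i => ?_
      rw [Real.norm_eq_abs, abs_mul]
      calc |c (i + (n + 1))| * |s (i + (n + 1))| ≤ 1 * |s (i + (n + 1))| :=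
            mul_le_mul_of_nonneg_right (hc1 _) (abs_nonneg _)
        _ = |s (i + (n + 1))| := one_mul _
        _ ≤ _ := habs n i
    have h3 : |c n * s n| ≤ |s n| / 3 * (1 - 1 / 3)⁻¹ := by
      have : c n * s n = -(∑' i, c (i + (n + 1)) * s (i + (n + 1))) := by linarith
      rw [this, abs_neg]
      exact h2
    have h4 : |c n| = 1 := by
      rcases hc n with h | h | h
      · simp [h]
      · exact absurd h hn
      · simp [h]
    rw [abs_mul, h4, one_mul] at h3
    have h5 : 0 < |s n| := abs_pos.2 (hs0 n)
    norm_num at h3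
    linarith

end Fast

theorem summable_sel (x : ℕ → ℝ) (hx : Summable x) (hpos : ∀ n, 0 < x n) (ε : ℕ → Bool) :
    Summable (fun n => if ε n = true then x n else 0) := by
  refine Summable.of_nonneg_of_le (fun n => ?_) (fun n => ?_) hx
  · split_ifs
    · exact (hpos n).le
    · exact le_rfl
  · split_ifs
    · exact le_rfl
    · exact (hpos n).le

theorem continuous_subsum (x : ℕ → ℝ) (hx : Summable x) (hpos : ∀ n, 0 < x n) :
    Continuous (subsum x) := by
  refine continuous_tsum (u := x) ?_ hx ?_
  · intro i
    have : (fun ε : ℕ → Bool => (if ε i = true then x i else 0))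
        = (fun b : Bool => (if b = true then x i else 0)) ∘ (fun ε : ℕ → Bool => ε i) := rfl
    rw [this]
    exact (continuous_of_discreteTopology).comp (continuous_apply i)
  · intro i ε
    split_ifs
    · simp [abs_of_pos (hpos i)]
    · simpa using (hpos i).le

/-- **Q1, answered positively.** For every summable sequence `x` of positive reals, the level set
`L_𝔠(x)` of the cardinality function is empty or contains a Cantor set. -/
theorem result (x : ℕ → ℝ) (hpos : ∀ n, 0 < x n) (hx : Summable x) :
    levelSet x Cardinal.continuum = ∅ ∨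
      ∃ C ⊆ levelSet x Cardinal.continuum, Nonempty (C ≃ₜ cantorSet) := by
  rw [or_iff_not_imp_left, ← Ne, ← Set.nonempty_iff_ne_empty]
  rintro ⟨t₀, ht₀⟩
  -- an injective continuous map into the fibre
  have hclosed : IsClosed {ε : ℕ → Bool | subsum x ε = t₀} :=
    isClosed_eq (continuous_subsum x hx hpos) continuous_const
  have hunc : ¬ {ε : ℕ → Bool | subsum x ε = t₀}.Countable := by
    intro hc
    have h1 : Cardinal.mk {ε : ℕ → Bool // subsum x ε = t₀} ≤ Cardinal.aleph0 :=
      Cardinal.mk_le_aleph0_iff.2 hc.to_subtype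
    have h2 : Cardinal.mk {ε : ℕ → Bool // subsum x ε = t₀} = Cardinal.continuum := ht₀
    rw [h2] at h1
    exact absurd Cardinal.aleph0_lt_continuum (not_lt.2 h1)
  have hpol : PolishSpace (ℕ → Bool) := PolishSpace.mk
  obtain ⟨f, hfr, hfc, hfi⟩ := hclosed.exists_nat_bool_injection_of_not_countable hunc
  obtain ⟨v, M, hM, h, hhi, hhv⟩ := fusion (fun m α => f α m)
    (fun m => (continuous_apply m).comp hfc)
  -- a fast subsequence
  have hlim : Tendsto x atTop (𝓝 0) := hx.tendsto_atTop_zero
  have hnext : ∀ n : ℕ, ∃ m, n < m ∧ m ∈ M ∧ x m ≤ x n / 3 := by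
    intro n
    have h1 : ∀ᶠ m in atTop, x m < x n / 3 := hlim.eventually_lt_const (by linarith [hpos n])
    have h2 : ∃ᶠ m in atTop, m ∈ M := Nat.frequently_atTop_iff_infinite.2 hM
    obtain ⟨m, hm1, hm2, hm3⟩ := (h2.and_eventually (h1.and (eventually_gt_atTop n))).exists
    exact ⟨m, hm3, hm1, hm2.le⟩
  choose nx hnx1 hnx2 hnx3 using hnext
  let mm : ℕ → ℕ := fun j => Nat.rec (nx 0) (fun _ p => nx p) j
  have hmm_succ : ∀ j, mm (j + 1) = nx (mm j) := fun j => rfl
  have hmmM : ∀ j, mm j ∈ M := by
    intro j
    cases j with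
    | zero => exact hnx2 0
    | succ j => rw [hmm_succ]; exact hnx2 _
  have hmono : StrictMono mm := strictMono_nat_of_lt_succ fun j => by
    rw [hmm_succ]; exact hnx1 _
  let sg : ℕ → ℝ := fun n => if v n = true then -1 else 1
  have hsg : ∀ n, |sg n| = 1 := by
    intro n
    simp only [sg]
    split_ifs <;> simp
  let s : ℕ → ℝ := fun j => sg (mm j) * x (mm j)
  have hs_abs : ∀ j, |s j| = x (mm j) := by
    intro j
    simp only [s, abs_mul, hsg, one_mul, abs_of_pos (hpos _)]
  have hs0 : ∀ j, s j ≠ 0 := fun j => by
    rw [← abs_pos, hs_abs]; exact hpos _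
  have hs3 : ∀ j, |s (j + 1)| ≤ |s j| / 3 := fun j => by
    rw [hs_abs j, hs_abs (j + 1), hmm_succ]; exact hnx3 _
  have hsumabs : Summable (fun j => |s j|) := by
    have := hx.comp_injective hmono.injective
    refine this.congr fun j => ?_
    rw [hs_abs]; rfl
  have hsumsel : ∀ β : ℕ → Bool, Summable (fun j => if β j = true then s j else 0) := by
    intro β
    refine Summable.of_norm_bounded hsumabs fun j => ?_
    split_ifs
    · exact le_of_eq (Real.norm_eq_abs _)
    · simp
  let Φ : (ℕ → Bool) → ℝ := fun β => t₀ + ∑' j, (if β j = true then s j else 0)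
  have hΦc : Continuous Φ := by
    refine continuous_const.add (continuous_tsum (u := fun j => |s j|) ?_ hsumabs ?_)
    · intro i
      have : (fun ε : ℕ → Bool => (if ε i = true then s i else 0))
          = (fun b : Bool => (if b = true then s i else 0)) ∘ (fun ε : ℕ → Bool => ε i) := rfl
      rw [this]
      exact (continuous_of_discreteTopology).comp (continuous_apply i)
    · intro i ε
      split_ifs
      · exact le_of_eq (Real.norm_eq_abs _)
      · simp
  have hΦi : Function.Injective Φ := by
    intro β β' hβ
    have h1 : ∑' j, (if β j = true then s j else 0) = ∑' j, (if β' j = true then s j else 0) :=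
      add_left_cancel hβ
    have h2 : ∑' j, ((if β j = true then (1 : ℝ) else 0) - (if β' j = true then 1 else 0)) * s j
        = 0 := by
      have : ∑' j, ((if β j = true then (1 : ℝ) else 0) - (if β' j = true then 1 else 0)) * s j
          = ∑' j, (if β j = true then s j else 0) - ∑' j, (if β' j = true then s j else 0) := by
        rw [← (hsumsel β).tsum_sub (hsumsel β')]
        refine tsum_congr fun j => ?_
        split_ifs <;> ring
      rw [this, h1, sub_self]
    have h3 := fast_inj s hs0 hs3 _ (fun j => by split_ifs <;> norm_num) h2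
    funext j
    have := h3 j
    cases hb : β j <;> cases hb' : β' j <;> simp_all
  refine ⟨range Φ, ?_, ?_⟩
  · rintro _ ⟨β, rfl⟩
    -- flipping the chosen coordinates
    have hDex : ∀ n, ∃ d : Bool, d = true ↔ ∃ j, mm j = n ∧ β j = true := by
      intro n
      rcases Classical.em (∃ j, mm j = n ∧ β j = true) with hn | hn
      · exact ⟨true, by simp [hn]⟩
      · exact ⟨false, by simp only [Bool.false_eq_true, false_iff]; exact hn⟩
    choose D hD using hDex
    have hDm : ∀ j, D (mm j) = β j := by
      intro j
      have : D (mm j) = true ↔ β j = true := by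
        rw [hD]
        exact ⟨fun ⟨i, hi, hb⟩ => by rwa [← hmono.injective hi], fun hb => ⟨j, rfl, hb⟩⟩
      cases h1 : D (mm j) <;> cases h2 : β j <;> simp_all
    let fl : (ℕ → Bool) → (ℕ → Bool) := fun ε n => xor (D n) (ε n)
    have hfl : Function.Injective fl := by
      intro ε ε' hε
      funext n
      have h1 : xor (D n) (ε n) = xor (D n) (ε' n) := congrFun hε n
      cases h2 : ε n <;> cases h3 : ε' n <;> cases h4 : D n <;> rw [h2, h3, h4] at h1 <;>
        first | rfl | exact Bool.noConfusion h1
    have hval : ∀ γ, subsum x (fl (f (h γ))) = Φ β := by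
      intro γ
      have ht : subsum x (f (h γ)) = t₀ := hfr ⟨h γ, rfl⟩
      have h1 : ∑' j, (if β j = true then s j else 0)
          = ∑' n, (if D n = true then sg n * x n else 0) := by
        rw [← hmono.injective.tsum_eq (f := fun n => if D n = true then sg n * x n else 0)]
        · refine tsum_congr fun j => ?_
          simp only [hDm, s]
        · intro n hn
          simp only [Function.mem_support, ne_eq, ite_eq_right_iff, not_forall] at hn
          obtain ⟨hn, -⟩ := hn
          obtain ⟨j, hj, -⟩ := (hD n).1 hn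
          exact ⟨j, hj⟩
      have h2 : Summable (fun n => (if D n = true then sg n * x n else 0)) := by
        refine Summable.of_norm_bounded hx fun n => ?_
        split_ifs
        · rw [Real.norm_eq_abs, abs_mul, hsg, one_mul, abs_of_pos (hpos n)]
        · simpa using (hpos n).le
      change subsum x (fl (f (h γ))) = t₀ + ∑' j, (if β j = true then s j else 0)
      rw [h1, ← ht]
      unfold subsum
      rw [← (summable_sel x hx hpos (f (h γ))).tsum_add h2]
      refine tsum_congr fun n => ?_
      by_cases hn : D n = true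
      · have hnM : n ∈ M := by
          obtain ⟨j, hj, -⟩ := (hD n).1 hn
          rw [← hj]; exact hmmM j
        have hv : f (h γ) n = v n := hhv n hnM γ
        simp only [fl, hn, hv, sg]
        cases v n <;> simp
      · simp only [fl, Bool.eq_false_iff.2 hn]
        simp
    have hle : Cardinal.continuum ≤ cardFun x (Φ β) := by
      have hinj : Function.Injective (fun γ : ℕ → Bool =>
          (⟨fl (f (h γ)), hval γ⟩ : {ε : ℕ → Bool // subsum x ε = Φ β})) := by
        intro γ γ' hγ
        exact hhi (hfi (hfl (congrArg Subtype.val hγ)))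
      have := Cardinal.mk_le_of_injective hinj
      have h2 : Cardinal.mk (ℕ → Bool) = Cardinal.continuum := by simp
      rwa [h2] at this
    have hge : cardFun x (Φ β) ≤ Cardinal.continuum := by
      have := Cardinal.mk_le_of_injective
        (f := fun e : {ε : ℕ → Bool // subsum x ε = Φ β} => e.1) Subtype.val_injective
      have h2 : Cardinal.mk (ℕ → Bool) = Cardinal.continuum := by simp
      rwa [h2] at this
    exact le_antisymm hge hle
  · have he := (hΦc.isClosedEmbedding hΦi).isEmbedding.toHomeomorph
    exact ⟨he.symm.trans cantorSetHomeomorphNatToBool.symm⟩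

end Pool.Agent.Results.MP_c42e77_an.ContinuumLevel
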